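import Pool.Agent.Q238.LI.Fin

/-!
# The integrals `∫_0^1 log^(n+1)(1-x) log^n(1+x) dx/(1+x)` are polynomials in `π²`, `log 2` and odd zeta values

Proof. For `J(a,b) = ∫_0^1 (1-x)^a (1+x)^(b-1) dx` one has
`b J(a,b) + a J(b,a) + 1 = 2^(a+b) Γ(1+a) Γ(1+b) / Γ(1+a+b)`, and the coefficient of `(ab)^(n+1)` of the
left hand side is `2 I_n / (n! (n+1)!)`. The Taylor coefficients of the right hand side are computed
from its logarithmic derivative with respect to `a`.
-/

set_option autoImplicit false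

namespace Pool.Agent.Results.MP_cd3f56_nt.LogIntegralInAlgebra

open MeasureTheory

/-- the integrand -/
noncomputable def integrand (n : ℕ) (x : ℝ) : ℝ :=
  Real.log (1 - x) ^ (n + 1) * Real.log (1 + x) ^ n / (1 + x)

/-- `I_n` -/
noncomputable def I (n : ℕ) : ℝ := ∫ x in (0 : ℝ)..1, integrand n x

/-- the `ℚ`-subalgebra of `ℝ` generated by `π²`, `log 2` and the zeta values `ζ(k)`, `k ≥ 3` odd -/
noncomputable def A : Subalgebra ℚ ℝ :=
  Algebra.adjoin ℚ ({Real.pi ^ 2, Real.log 2} ∪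
    {x : ℝ | ∃ k : ℕ, Odd k ∧ 3 ≤ k ∧ x = ∑' n : ℕ, 1 / ((n : ℝ) + 1) ^ k})

/-- For every `n ≥ 1` the integral `I_n` converges absolutely and lies in `A`. -/
theorem result (n : ℕ) (_hn : 1 ≤ n) : IntervalIntegrable (integrand n) volume 0 1 ∧ I n ∈ A := by
  refine ⟨?_, Q238.LI.main n⟩
  rw [intervalIntegrable_iff_integrableOn_Ioc_of_le zero_le_one]
  have hm : Measurable (integrand n) := by
    unfold integrand
    fun_prop
  refine Q238.LI.int_of_bd hm (a := 1 / 2) (by norm_num)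
    (C := 2 ^ (n + 1) * ((n + 1).factorial : ℝ)) fun x hx => ?_
  unfold integrand
  have h0 := Q238.LI.l2_nonneg hx
  have h1 := Q238.LI.l2_le hx
  have h2 := Q238.LI.l1_pow_le x (n + 1)
  unfold Q238.LI.l2 at h0 h1
  unfold Q238.LI.l1 at h2 ⊢
  rw [abs_div, abs_mul, abs_pow, abs_pow, abs_of_nonneg h0, abs_of_pos (by linarith [hx.1] : 0 < 1 + x)]
  rw [div_le_iff₀ (by linarith [hx.1])]
  have h3 : Real.log (1 + x) ^ n ≤ 1 := pow_le_one₀ h0 h1
  calc |Real.log (1 - x)| ^ (n + 1) * Real.log (1 + x) ^ n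
      ≤ (2 ^ (n + 1) * ((n + 1).factorial : ℝ) * Real.exp (1 / 2 * |Real.log (1 - x)|)) * 1 :=
        mul_le_mul h2 h3 (by positivity) (by positivity)
    _ ≤ 2 ^ (n + 1) * ((n + 1).factorial : ℝ) * Real.exp (1 / 2 * |Real.log (1 - x)|) * (1 + x) := by
        refine mul_le_mul_of_nonneg_left (by linarith [hx.1]) (by positivity)

end Pool.Agent.Results.MP_cd3f56_nt.LogIntegralInAlgebra
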